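import Pool.Agent.Helper69.LT.St
import Pool.Agent.Helper84.LE.BKP
import Pool.Agent.Helper84.LE.BWT
import Pool.Agent.Helper84.LE.M_Lev
import Pool.Agent.Helper84.LE.M_BK
import Pool.Agent.Helper84.LE.M_TRcm
import Pool.Agent.Helper84.LE.M_DRBK

/-! Project LT (MP_65faa7), module Lev: one level. -/

set_option autoImplicit false

open scoped BigOperators ENNReal
open Pool.LE Pool.NL

namespace Pool.LT

namespace LevM

variable {V : Type} [DecidableEq V]

/-- number of places where a mark can be inserted -/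
def slots (M : List (V × List V × V)) : ℕ := (M.map (fun c => c.2.1.length + 1)).sum

theorem slots_ins {z : V} {M : List (V × List V × V)} :
    ∀ {M' : List (V × List V × V)}, M' ∈ ins z M → slots M' = slots M + 1 := by
  induction M with
  | nil => intro M' h; simp [ins] at h
  | cons c M ih =>
    intro M' h
    simp only [ins, List.mem_cons, List.mem_map] at h
    rcases h with rfl | ⟨M'', hM'', rfl⟩
    · simp only [slots, List.map_cons, List.sum_cons, List.length_cons]
      omega
    · have := ih hM''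
      simp only [slots, List.map_cons, List.sum_cons] at this ⊢
      omega

open Classical in
/-- the integrand -/
noncomputable def J (L : Finset V) (k : V → ℝ) (lam : ENNReal) (ω : Finset (Sym2 V))
    (v s u s' t w' w : V) : ENNReal :=
  ((ins w [(v, [t, w'], s), (t, [u], w')]).map (fun L' =>
    (if DR ((w, [], s') :: L') ω then (1 : ENNReal) else 0) +
    3 * lam * ∑ y ∈ L, ENNReal.ofReal |k y| * ∑' z : V,
      ((ins z ((w, [], s') :: L')).map (fun L'' =>
        if DR ((z, [], y) :: L'') ω then (1 : ENNReal) else 0)).sum)).sum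

open Classical in
theorem ind_mono (M : List (V × List V × V)) {ω ω' : Finset (Sym2 V)} (h : ω ⊆ ω') :
    (if DR M ω then (1 : ENNReal) else 0) ≤ if DR M ω' then (1 : ENNReal) else 0 := by
  by_cases hd : DR M ω
  · rw [if_pos hd, if_pos (wit_DR_mono M h hd)]
  · rw [if_neg hd]; exact zero_le

theorem J_mono (L : Finset V) (k : V → ℝ) (lam : ENNReal) {ω ω' : Finset (Sym2 V)} (h : ω ⊆ ω')
    (v s u s' t w' w : V) : J L k lam ω v s u s' t w' w ≤ J L k lam ω' v s u s' t w' w := by
  classical
  unfold J
  refine List.sum_le_sum fun L' _ => ?_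
  refine add_le_add (ind_mono _ h) (mul_le_mul_right ?_ _)
  refine Finset.sum_le_sum fun y _ => mul_le_mul_right ?_ _
  refine ENNReal.tsum_le_tsum fun z => ?_
  exact List.sum_le_sum fun L'' _ => ind_mono _ h

theorem ExE_J {L : Finset V} {k : V → ℝ} {lam : ENNReal} {E : Finset (Sym2 V)} {p : ℝ}
    {T : V → V → ENNReal} {eta : ENNReal} (h0 : 0 ≤ p) (h1 : p ≤ 1 / 2) (hD : Dom E p T)
    (hT : ∀ x, 1 ≤ T x x) (heta : ∀ w, ∑ y ∈ L, T w y * ENNReal.ofReal |k y| ≤ eta)
    (v s u s' t w' w : V) :
    ExE E p (fun ω => J L k lam ω v s u s' t w' w) ≤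
      (1 + 21 * lam * eta) * (earS (kc T T) 0 [(v, [t, w'], s), (t, [u], w')] w * kc T T w s') := by
  classical
  have hDR : StDRBK := hDRBK hBK (hTRcm hBK)
  have hmono : ∀ x y, T x y ≤ kc T T x y := le_kc_self hT
  unfold J
  rw [lev_ExE_list_sum]
  show _ ≤ (1 + 21 * lam * eta) *
    (((ins w [(v, [t, w'], s), (t, [u], w')]).map (cmL (kc T T))).sum * kc T T w s')
  rw [lev_list_sum_mul_right, mul_comm (1 + 21 * lam * eta), lev_list_sum_mul_right]
  refine List.sum_le_sum fun L' hL' => ?_
  have hsl : slots ((w, [], s') :: L') = 7 := by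
    have := slots_ins hL'
    simp only [slots, List.map_cons, List.sum_cons, List.map_nil, List.sum_nil, List.length_cons,
      List.length_nil] at this ⊢
    omega
  have hM : cmL (kc T T) ((w, [], s') :: L') = cmL (kc T T) L' * kc T T w s' := by
    rw [cmL_cons, cm_nil, mul_comm]
  rw [ExE_add, ExE_mul_left, ExE_sum]
  have e1 : ExE E p (fun ω => if DR ((w, [], s') :: L') ω then (1 : ENNReal) else 0) ≤
      cmL (kc T T) L' * kc T T w s' := by
    refine (hDR V E p T h0 h1 hD ((w, [], s') :: L')).trans ?_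
    rw [← hM]
    exact cmL_mono hmono _
  have e2 : ∑ y ∈ L, ExE E p (fun ω => ENNReal.ofReal |k y| * ∑' z : V,
      ((ins z ((w, [], s') :: L')).map (fun L'' =>
        if DR ((z, [], y) :: L'') ω then (1 : ENNReal) else 0)).sum) ≤
      eta * (7 * (cmL (kc T T) L' * kc T T w s')) := by
    have hy : ∀ y ∈ L, ExE E p (fun ω => ENNReal.ofReal |k y| * ∑' z : V,
        ((ins z ((w, [], s') :: L')).map (fun L'' =>
          if DR ((z, [], y) :: L'') ω then (1 : ENNReal) else 0)).sum) ≤
        ∑' z : V, ((ins z ((w, [], s') :: L')).map (cmL T)).sum *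
          (T z y * ENNReal.ofReal |k y|) := by
      intro y _
      rw [ExE_mul_left, ExE_tsum, ← ENNReal.tsum_mul_left]
      refine ENNReal.tsum_le_tsum fun z => ?_
      rw [lev_ExE_list_sum, lev_list_sum_mul_right, mul_comm, lev_list_sum_mul_right]
      refine List.sum_le_sum fun L'' _ => ?_
      have := hDR V E p T h0 h1 hD ((z, [], y) :: L'')
      rw [cmL_cons, cm_nil] at this
      calc _ ≤ (T z y * cmL T L'') * ENNReal.ofReal |k y| := mul_le_mul' this le_rfl
        _ = cmL T L'' * (T z y * ENNReal.ofReal |k y|) := by ring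
    refine (Finset.sum_le_sum hy).trans ?_
    rw [← Summable.tsum_finsetSum (fun _ _ => ENNReal.summable)]
    have h2 : ∀ z : V, ∑ y ∈ L, ((ins z ((w, [], s') :: L')).map (cmL T)).sum *
        (T z y * ENNReal.ofReal |k y|) ≤ eta * ((ins z ((w, [], s') :: L')).map (cmL T)).sum := by
      intro z
      rw [← Finset.mul_sum, mul_comm eta]
      exact mul_le_mul_right (heta z) _
    refine (ENNReal.tsum_le_tsum h2).trans ?_
    rw [ENNReal.tsum_mul_left]
    refine mul_le_mul_right ?_ _
    have h3 := free hT ((w, [], s') :: L')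
    have h4 : (((((w, ([] : List V), s') :: L').map (fun c => c.2.1.length + 1)).sum : ℕ) : ENNReal) =
        7 := by
      have h5 : (((w, ([] : List V), s') :: L').map (fun c => c.2.1.length + 1)).sum = 7 := hsl
      rw [h5]
      norm_num
    rw [h4, hM] at h3
    exact h3
  refine (add_le_add e1 (mul_le_mul_right e2 _)).trans (le_of_eq ?_)
  ring

end LevM

theorem hLev (_ : SNl) (hNorm : SNorm) (hLevD : SLevD) : SLev := by
  classical
  intro V _ L ρ k lam E p T K q nbf B eps eta D hE hρ f hf A v u s'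
  have hpt : ∀ ω, Nl lam (vA L (dw ρ k) (f ω) A v u) *
      (if con (f ω) v s' then (1 : ENNReal) else 0) ≤
      ∑' s : V, ∑' t : V, ∑' w' : V, ∑' w : V,
        if s ∈ A then LevM.J L k lam ω v s u s' t w' w else 0 := by
    intro ω
    by_cases hc : con (f ω) v s'
    swap
    · rw [if_neg hc, mul_zero]; exact zero_le
    rw [if_pos hc, mul_one]
    refine (hNorm V L ρ k lam (f ω) A v u hρ).trans ?_
    rw [ENNReal.tsum_comm, ← ENNReal.tsum_mul_left]
    refine ENNReal.tsum_le_tsum fun s => ?_
    rw [← ENNReal.tsum_mul_left]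
    refine ENNReal.tsum_le_tsum fun t => ?_
    by_cases hh : s ∈ A ∧ Bp (f ω) v u t s
    swap
    · rw [if_neg hh, mul_zero]; exact zero_le
    rw [if_pos hh, mul_one]
    simp only [if_pos hh.1]
    refine (hLevD V L k lam (f ω) v u t s s' hh.2 hc).trans ?_
    exact ENNReal.tsum_le_tsum fun w' => ENNReal.tsum_le_tsum fun w =>
      LevM.J_mono L k lam (hf ω) v s u s' t w' w
  refine (ExE_mono fun ω _ => hpt ω).trans ?_
  rw [ExE_tsum, ← ENNReal.tsum_mul_left]
  refine ENNReal.tsum_le_tsum fun s => ?_
  by_cases hs : s ∈ A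
  swap
  · simp only [if_neg hs, tsum_zero]
    simp [ExE]
  simp only [if_pos hs]
  have hterm : ∀ t w' w : V, ExE E p (fun ω => LevM.J L k lam ω v s u s' t w' w) ≤
      (1 + 21 * lam * eta) *
        (earS (kc T T) 0 [(v, [t, w'], s), (t, [u], w')] w * kc T T w s') := fun t w' w =>
    LevM.ExE_J hE.p0 hE.p1 hE.dom hE.one_le hE.heta v s u s' t w' w
  calc ExE E p (fun ω => ∑' t : V, ∑' w' : V, ∑' w : V, LevM.J L k lam ω v s u s' t w' w)
      = ∑' t : V, ∑' w' : V, ∑' w : V, ExE E p (fun ω => LevM.J L k lam ω v s u s' t w' w) := by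
        rw [ExE_tsum]
        refine tsum_congr fun t => ?_
        rw [ExE_tsum]
        refine tsum_congr fun w' => ?_
        rw [ExE_tsum]
    _ ≤ ∑' t : V, ∑' w' : V, ∑' w : V, (1 + 21 * lam * eta) *
          (earS (kc T T) 0 [(v, [t, w'], s), (t, [u], w')] w * kc T T w s') :=
        ENNReal.tsum_le_tsum fun t => ENNReal.tsum_le_tsum fun w' =>
          ENNReal.tsum_le_tsum fun w => hterm t w' w
    _ = (1 + 21 * lam * eta) * ∑' t : V, ∑' w' : V, ∑' w : V,
          earS (kc T T) 0 [(v, [t, w'], s), (t, [u], w')] w * kc T T w s' := by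
        rw [← ENNReal.tsum_mul_left]
        refine tsum_congr fun t => ?_
        rw [← ENNReal.tsum_mul_left]
        refine tsum_congr fun w' => ?_
        rw [← ENNReal.tsum_mul_left]
    _ = (1 + 21 * lam * eta) * ∑' w : V, ∑' t : V, ∑' w' : V,
          earS (kc T T) 0 [(v, [t, w'], s), (t, [u], w')] w * kc T T w s' := by
        congr 1
        rw [ENNReal.tsum_comm]
        rw [tsum_congr fun t : V => ENNReal.tsum_comm]
        rw [ENNReal.tsum_comm]
        refine tsum_congr fun w => ?_
        rw [ENNReal.tsum_comm]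
    _ = (1 + 21 * lam * eta) * ∑' w : V, core0 (kc T T) v s u w * kc T T w s' := by
        congr 1
        refine tsum_congr fun w => ?_
        unfold core0 coreR
        rw [← ENNReal.tsum_mul_right]
        exact tsum_congr fun t => ENNReal.tsum_mul_right

end Pool.LT
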